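import Mathlib

namespace Pool.Agent.Results.MP_60983f_an.Q1No

open Set MeasureTheory Real
open scoped Pointwise

noncomputable def W (b : ℕ) (α : ℝ) (g : ℝ → ℝ) (x : ℝ) : ℝ :=
  ∑' k : ℕ, (b : ℝ) ^ (-(α * k)) * g (b ^ k * x)

def graph (F : ℝ → ℝ) : Set (EuclideanSpace ℝ (Fin 2)) := {p | p 0 ∈ Icc 0 1 ∧ p 1 = F (p 0)}

noncomputable def proj (θ : ℝ) (p : EuclideanSpace ℝ (Fin 2)) : ℝ := p 0 * cos θ + p 1 * sin θ

def Shy {X : Type*} [AddCommGroup X] [TopologicalSpace X] [MeasurableSpace X] (A : Set X) : Prop :=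
  ∃ (μ : Measure X) (B : Set X), MeasurableSet B ∧ A ⊆ B ∧
    (∃ K, IsCompact K ∧ 0 < μ K ∧ μ K < ⊤) ∧ ∀ x : X, μ (x +ᵥ B) = 0

lemma key {F : ℝ → ℝ} (hF : Continuous F) : {s : ℝ | ¬∃ x ∈ Icc (0 : ℝ) 1,
    ∀ y ∈ Icc (0 : ℝ) 1, y ≠ x → F y + s * y < F x + s * x}.Countable := by
  have A : ∀ s : ℝ, (¬∃ x ∈ Icc (0 : ℝ) 1, ∀ y ∈ Icc (0 : ℝ) 1, y ≠ x →
      F y + s * y < F x + s * x) → ∃ q : ℚ, ∃ x ∈ Icc (0 : ℝ) 1, ∃ y ∈ Icc (0 : ℝ) 1,
        x < q ∧ q < y ∧ (∀ z ∈ Icc (0 : ℝ) 1, F z + s * z ≤ F x + s * x) ∧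
          ∀ z ∈ Icc (0 : ℝ) 1, F z + s * z ≤ F y + s * y := fun s h => by
    obtain ⟨x, hx, m⟩ := isCompact_Icc.exists_isMaxOn (nonempty_Icc.2 (zero_le_one' ℝ))
      (f := fun z => F z + s * z) (by fun_prop)
    push Not at h
    obtain ⟨y, hy, n, e⟩ := h x hx
    rcases lt_or_gt_of_ne n with c | c
    · obtain ⟨q, q1, q2⟩ := exists_rat_btwn c
      exact ⟨q, y, hy, x, hx, q1, q2, fun z hz => (m hz).trans e, fun z hz => m hz⟩
    · obtain ⟨q, q1, q2⟩ := exists_rat_btwn c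
      exact ⟨q, x, hx, y, hy, q1, q2, fun z hz => m hz, fun z hz => (m hz).trans e⟩
  choose! q hq using A
  refine (Set.MapsTo.countable_of_injOn (f := q) (mapsTo_univ _ _) (fun s hs t ht e => ?_)
    countable_univ)
  obtain ⟨x, hx, y, hy, a1, a2, a3, a4⟩ := hq s hs
  obtain ⟨x', hx', y', hy', b1, b2, b3, b4⟩ := hq t ht
  rw [← e] at b1 b2
  apply le_antisymm
  · nlinarith [a3 y' hy', b4 x hx]
  · nlinarith [b3 y hy, a4 x' hx']

theorem result (b : ℕ) (hb : 2 ≤ b) (α : ℝ) (a0 : 0 < α) (a1 : α < 1) :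
    (∀ g : ℝ → ℝ, Function.Periodic g 1 → (∃ K, LipschitzWith K g) →
      ∃ θ ∈ Ioo 0 π, ∃ p ∈ graph (W b α g),
        graph (W b α g) ∩ proj θ ⁻¹' {proj θ p} = {p}) ∧
    ∀ (X : Type) [AddCommGroup X] [TopologicalSpace X] [MeasurableSpace X] (ι : X → ℝ → ℝ),
      (∀ g, Function.Periodic (ι g) 1 ∧ ∃ K, LipschitzWith K (ι g)) →
      ¬∃ A : Set X, Shy Aᶜ ∧ ∀ g ∈ A, ∀ θ ∈ Ico 0 (2 * π), sin θ ≠ 0 →
        ∀ t ∈ proj θ '' graph (W b α (ι g)),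
          dimH (graph (W b α (ι g)) ∩ proj θ ⁻¹' {t}) = ENNReal.ofReal (1 - α) := by
  have H : ∀ g : ℝ → ℝ, Function.Periodic g 1 → (∃ K, LipschitzWith K g) →
      ∃ θ ∈ Ioo 0 π, ∃ p ∈ graph (W b α g),
        graph (W b α g) ∩ proj θ ⁻¹' {proj θ p} = {p} := fun g hg ⟨K, hK⟩ => by
    have gc := hK.continuous
    obtain ⟨M, hM⟩ := (hg.isBounded_of_continuous one_ne_zero gc).exists_norm_le
    have b1 : (1 : ℝ) < b := by exact_mod_cast hb
    have c : Continuous (W b α g) := by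
      refine continuous_tsum (u := fun k : ℕ => ((b : ℝ) ^ (-α)) ^ k * M) (fun k => by fun_prop)
        ((summable_geometric_of_lt_one (by positivity)
          (rpow_lt_one_of_one_lt_of_neg b1 (by linarith))).mul_right M) fun k x => ?_
      rw [norm_mul, norm_of_nonneg (by positivity), ← neg_mul, rpow_mul_natCast (by positivity)]
      exact mul_le_mul_of_nonneg_left (hM _ ⟨_, rfl⟩) (by positivity)
    obtain ⟨s, hs⟩ : ∃ s : ℝ, ∃ x ∈ Icc (0 : ℝ) 1, ∀ y ∈ Icc (0 : ℝ) 1, y ≠ x →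
        W b α g y + s * y < W b α g x + s * x := by
      by_contra h
      exact not_countable_univ ((key c).mono fun s _ k => h ⟨s, k⟩)
    obtain ⟨x, hx, h⟩ := hs
    have c0 := cos_arctan_pos s
    have e : sin (arctan s) = s * cos (arctan s) := by
      rw [← tan_mul_cos c0.ne', tan_arctan]
    refine ⟨π / 2 - arctan s, ⟨by linarith [arctan_lt_pi_div_two s],
      by linarith [neg_pi_div_two_lt_arctan s]⟩, !₂[x, W b α g x], ⟨hx, rfl⟩,
      eq_singleton_iff_unique_mem.2 ⟨⟨⟨hx, rfl⟩, rfl⟩, fun p ⟨⟨p1, p2⟩, p3⟩ => ?_⟩⟩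
    have z : p 0 = x := by
      by_contra n
      have := mul_lt_mul_of_pos_right (h _ p1 n) c0
      simp only [mem_preimage, proj, cos_pi_div_two_sub, sin_pi_div_two_sub, e, p2,
        mem_singleton_iff, Matrix.cons_val_zero, Matrix.cons_val_one] at p3
      linarith
    ext i
    fin_cases i
    · exact z
    · simpa [z] using p2
  refine ⟨H, fun X _ _ _ ι hι ⟨A, ⟨μ, B, _, AB, ⟨K, _, k, _⟩, hμ⟩, hA⟩ => ?_⟩
  have : A = ∅ := eq_empty_of_forall_notMem fun g hg => by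
    obtain ⟨θ, t, p, hp, e⟩ := H _ (hι g).1 (hι g).2
    have := hA g hg θ ⟨t.1.le, by linarith [t.2, pi_pos]⟩ (sin_pos_of_pos_of_lt_pi t.1 t.2).ne' _
      ⟨p, hp, rfl⟩
    rw [e, dimH_singleton] at this
    exact (ENNReal.ofReal_pos.2 (by linarith)).ne this
  have z := hμ 0
  rw [zero_vadd] at z
  rw [this, compl_empty] at AB
  exact k.ne' (measure_mono_null (fun x _ => AB (mem_univ x)) z)

end Pool.Agent.Results.MP_60983f_an.Q1No
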